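import Pool.Agent.H65.KN.Val

/-!
Kernel of supercritical collections, modules M8 and M9: the product formula and the index as a sum
over the discrete valuations, by passing to the generic curve
-/

namespace Pool.Agent.H65.KN

open SC

/-- two Gauss extensions have the same order function -/
theorem gauss_unique (h_G4u : T_G4u) {k K k' k'' L J : Type} [Field k] [Field K] [Field k'] [Field k'']
    [Field L] [Algebra k K] [Algebra K L] [Algebra k' L] [Algebra k'' L] [Finite J] (v : DV k K)
    (w : DV k' L) (w' : DV k'' L) (S : J → Sys K) (U : Var S → L) (hS : ∀ j, (S j).Nz) (hU : IsGen S U)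
    (hw : Gauss v w S U) (hw' : Gauss v w' S U) : w'.ord = w.ord := by
  have hpiv : ∀ j, ∃ i, (S j).s i ≠ 0 ∧ v.ord ((S j).s i) = v.mo (S j) := fun j => (mo_spec v (hS j)).1
  choose i0 hi0 using hpiv
  obtain ⟨φ, hφ, hgen⟩ := hw'.gen
  refine h_G4u k K k' k'' L J v w w' S U 1 φ i0 hS hU hw ⟨one_pos, fun x => ?_⟩ hφ hw'.nonneg hi0 ?_
  · rw [hw'.ordK, Nat.cast_one, one_mul]
  · let _ : Algebra v.Res w'.Res := φ.toAlgebra
    exact hgen.indep i0 fun j => (res_ne_zero v (hS j) _).2 (hi0 j)

/-- the nontrivial places of the generic curve are the Gauss extensions of the valuations of positive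
index -/
theorem places_equiv (h_V6a : T_V6a) (h_G3t : T_G3t) (h_G5 : T_G5) (h_GD : T_GD) (h_GE : T_GE)
    (h_G4u : T_G4u) {k K L J : Type} [Field k] [CharZero k] [Field K] [Field L] [Algebra k K] [Algebra K L]
    [Algebra k L] [IsScalarTower k K L] [Algebra.EssFiniteType k K] [Fintype J] (S : J → Sys K)
    (U : Var S → L) (hS : ∀ j, (S j).Nz) (hU : IsGen S U) (hk : AlgebraicIndependent k U)
    (htr : Algebra.trdeg k K = (Fintype.card J + 1 : ℕ)) :
    ∃ e : {P : DV (kU k U) L // ∃ x : K, P.ord (algebraMap K L x) ≠ 0} →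
      {v : DV k K // Idx (fun j => v.res (S j)) k ≠ 0}, Function.Bijective e ∧
      ∀ P, Gauss (e P).1 P.1 S U ∧ P.1.deg = Idx (fun j => (e P).1.res (S j)) k := by
  have hch : CharZero (kU k U) := charZero_of_injective_algebraMap (algebraMap k (kU k U)).injective
  obtain ⟨hess, -, htr1⟩ := h_G3t k K L J S U (Fintype.card J + 1) hS hU hk htr
  rw [Nat.add_sub_cancel_left, Nat.cast_one] at htr1
  have hfin : ∀ P : DV (kU k U) L, Module.Finite (kU k U) P.Res := h_V6a (kU k U) L htr1
  have hex : ∀ P : {P : DV (kU k U) L // ∃ x : K, P.ord (algebraMap K L x) ≠ 0},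
      ∃ v : DV k K, Gauss v P.1 S U := by
    rintro ⟨P, hP⟩
    have := hfin P
    exact h_G5 k K L J S U P hS hU hk htr (Algebra.IsAlgebraic.of_finite _ _) hP
  choose v hv using hex
  have hdeg : ∀ P, P.1.deg = Idx (fun j => (v P).res (S j)) k := fun P =>
    h_GD k K L J (v P) S U P.1 hS hU hk (hv P)
  have hdeg0 : ∀ P : DV (kU k U) L, P.deg ≠ 0 := by
    intro P
    have := hfin P
    have h1 : 0 < Module.finrank (kU k U) P.Res := Module.finrank_pos
    exact h1.ne'
  refine ⟨fun P => ⟨v P, by rw [← hdeg P]; exact hdeg0 P.1⟩, ⟨?_, ?_⟩, fun P => ⟨hv P, hdeg P⟩⟩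
  · intro P P' h
    have h1 : v P = v P' := congrArg Subtype.val h
    have h2 := hv P'
    rw [← h1] at h2
    exact Subtype.ext (DV.ext (gauss_unique h_G4u (v P) P'.1 P.1 S U hS hU h2 (hv P)))
  · rintro ⟨u, hu⟩
    obtain ⟨-, w, hw⟩ := h_GE k K L J u S U hS hU hu
    obtain ⟨x, -, hx⟩ := u.ord_surj
    have hnt : ∃ x : K, w.ord (algebraMap K L x) ≠ 0 := ⟨x, by rw [hw.ordK, hx]; exact one_ne_zero⟩
    refine ⟨⟨w, hnt⟩, Subtype.ext (DV.ext ?_)⟩
    funext y
    exact ((hv ⟨w, hnt⟩).ordK y).symm.trans (hw.ordK y)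

/-- transfer of finite sums along a bijection of subtypes -/
theorem transfer {A B : Type} {p : A → Prop} {q : B → Prop} (e : {a // p a} → {b // q b})
    (he : Function.Bijective e) (g : A → ℤ) (h : B → ℤ) (hg : ∀ a, ¬ p a → g a = 0)
    (hh : ∀ b, ¬ q b → h b = 0) (hgh : ∀ a : {a // p a}, g a.1 = h (e a).1) :
    ∑ᶠ a, g a = ∑ᶠ b, h b ∧ ({a | g a ≠ 0}.Finite → {b | h b ≠ 0}.Finite) := by
  have h1 : ∀ {C : Type} (r : C → Prop) (f : C → ℤ), (∀ c, ¬ r c → f c = 0) →
      ∑ᶠ c, f c = ∑ᶠ c : {c // r c}, f c.1 := by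
    intro C r f hf
    rw [finsum_subtype_eq_finsum_cond (f := f) r]
    refine finsum_congr fun c => ?_
    by_cases hc : r c
    · simp [hc]
    · simp [hc, hf c hc]
  constructor
  · rw [h1 p g hg, h1 q h hh]
    exact finsum_eq_of_bijective e he hgh
  · intro hfin
    have h2 : {a : {a // p a} | g a.1 ≠ 0}.Finite :=
      hfin.preimage (f := fun a : {a // p a} => a.1) (Subtype.val_injective.injOn)
    refine (h2.image fun a => (e a).1).subset ?_
    intro b hb
    have hqb : q b := by
      by_contra h3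
      exact hb (hh b h3)
    obtain ⟨a, ha⟩ := he.2 ⟨b, hqb⟩
    refine ⟨a, ?_, congrArg Subtype.val ha⟩
    show g a.1 ≠ 0
    rw [hgh a, ha]
    exact hb

/-- M8: product formula in any dimension -/
theorem m8 (h_V6a : T_V6a) (h_V6b : T_V6b) (h_V6c : T_V6c) (h_G1a : T_G1a) (h_G3t : T_G3t)
    (h_G5 : T_G5) (h_GD : T_GD) (h_GE : T_GE) (h_G4u : T_G4u) : T_M8 := by
  intro k K J _ _ _ _ _ _ S hS htr f
  have hU := h_G1a K J S hS
  by_cases hk : AlgebraicIndependent k (genU S)
  · obtain ⟨e, he, hG⟩ := places_equiv h_V6a h_G3t h_G5 h_GD h_GE h_G4u S (genU S) hS hU hk htr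
    have hch : CharZero (kU k (genU S)) :=
      charZero_of_injective_algebraMap (algebraMap k (kU k (genU S))).injective
    obtain ⟨hess, -, htr1⟩ := h_G3t k K (Gen S) J S (genU S) (Fintype.card J + 1) hS hU hk htr
    rw [Nat.add_sub_cancel_left, Nat.cast_one] at htr1
    obtain ⟨h1, h2⟩ := transfer e he
      (fun P => (P.deg : ℤ) * P.ord (algebraMap K (Gen S) f))
      (fun v => v.ord f * (Idx (fun j => v.res (S j)) k : ℤ))
      (fun P hP => by
        have : P.ord (algebraMap K (Gen S) f) = 0 := by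
          by_contra h0
          exact hP ⟨f, h0⟩
        simp [this])
      (fun v hv => by
        have : Idx (fun j => v.res (S j)) k = 0 := not_not.1 hv
        simp [this])
      (fun P => by
        show ((P.1.deg : ℕ) : ℤ) * P.1.ord (algebraMap K (Gen S) f) = _
        rw [(hG P).1.ordK, (hG P).2, mul_comm])
    constructor
    · refine (h2 ?_).subset ?_
      · refine (h_V6b (kU k (genU S)) (Gen S) htr1 (algebraMap K (Gen S) f)).subset ?_
        intro P hP
        exact right_ne_zero_of_mul hP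
      · rintro v ⟨hv1, hv2⟩
        exact mul_ne_zero hv1 (by exact_mod_cast hv2)
    · rw [← h1]
      exact h_V6c (kU k (genU S)) (Gen S) htr1 _
  · have h0 : ∀ v : DV k K, Idx (fun j => v.res (S j)) k = 0 := by
      intro v
      by_contra h
      exact hk (h_GE k K (Gen S) J v S (genU S) hS hU h).1
    simp [h0]

/-- the minimal order of a system at a place which is trivial on the subfield -/
theorem mo_trivial {k' K L : Type} [Field k'] [Field K] [Field L] [Algebra k' L] [Algebra K L]
    (P : DV k' L) (s : Sys K) (hs : s.Nz) (h : ∀ x : K, P.ord (algebraMap K L x) = 0) :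
    P.mo (s.up L) = 0 := by
  have hs' : (s.up L).Nz := by
    obtain ⟨i, hi⟩ := hs
    exact ⟨i, by simpa using hi⟩
  obtain ⟨i, -, hi⟩ := (mo_spec P hs').1
  rw [← hi]
  exact h _

/-- the minimal order of a system at a place over `v` of ramification index one -/
theorem mo_gauss {k k' K L : Type} [Field k] [Field k'] [Field K] [Field L] [Algebra k K] [Algebra k' L]
    [Algebra K L] (v : DV k K) (P : DV k' L) (s : Sys K) (h : ∀ x : K, P.ord (algebraMap K L x) = v.ord x) :
    P.mo (s.up L) = v.mo s := by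
  unfold DV.mo
  congr 1
  ext z
  simp only [Set.mem_ofPred_eq]
  constructor
  · rintro ⟨i, hi, hz⟩
    refine ⟨i, by simpa using hi, ?_⟩
    rw [← h]
    exact hz
  · rintro ⟨i, hi, hz⟩
    refine ⟨i, by simpa using hi, ?_⟩
    rw [← hz, ← h]

/-- M9: the index as a sum over the discrete valuations -/
theorem m9 (h_V6a : T_V6a) (h_V6b : T_V6b) (h_V6c : T_V6c) (h_G1a : T_G1a) (h_G2r : T_G2r)
    (h_G3i : T_G3i) (h_G3t : T_G3t) (h_G5 : T_G5) (h_GD : T_GD) (h_GE : T_GE) (h_G4u : T_G4u)
    (h_M1 : T_M1) : T_M9 := by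
  intro k K J _ _ _ _ _ _ S s hS hs htr
  have hU := h_G1a K J S hS
  have hM8 := m8 h_V6a h_V6b h_V6c h_G1a h_G3t h_G5 h_GD h_GE h_G4u k K J S hS htr
  constructor
  · have h1 : (⋃ i : Fin s.r, {v : DV k K | v.ord (s.s i) ≠ 0 ∧ Idx (fun j => v.res (S j)) k ≠ 0}).Finite :=
      Set.finite_iUnion fun i => (hM8 (s.s i)).1
    refine h1.subset ?_
    rintro v ⟨hv1, hv2⟩
    obtain ⟨i, -, hi⟩ := (mo_spec v hs).1
    exact Set.mem_iUnion.2 ⟨i, by rw [hi]; exact hv1, hv2⟩
  · have hswap : Idx (Sum.elim (fun _ : Unit => s) S) k = Idx (Sum.elim S (fun _ : Unit => s)) k := by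
      have hNz : ∀ j : J ⊕ Unit, (Sum.elim S (fun _ : Unit => s) j).Nz := by
        rintro (j | j)
        · exact hS j
        · exact hs
      have h1 := h_G2r k K (J ⊕ Unit) (Unit ⊕ J) (Sum.elim S (fun _ : Unit => s)) (Equiv.sumComm _ _) hNz
      rw [← h1]
      congr 1
      funext j
      rcases j with j | j <;> rfl
    rw [hswap]
    obtain ⟨h3, h4⟩ := h_G3i k K (Gen S) J Unit S (fun _ => s) (genU S) hS (fun _ => hs) hU
    by_cases hk : AlgebraicIndependent k (genU S)
    · rw [h3 hk]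
      obtain ⟨e, he, hG⟩ := places_equiv h_V6a h_G3t h_G5 h_GD h_GE h_G4u S (genU S) hS hU hk htr
      have hch : CharZero (kU k (genU S)) :=
        charZero_of_injective_algebraMap (algebraMap k (kU k (genU S))).injective
      obtain ⟨hess, -, htr1⟩ := h_G3t k K (Gen S) J S (genU S) (Fintype.card J + 1) hS hU hk htr
      rw [Nat.add_sub_cancel_left, Nat.cast_one] at htr1
      have hs' : (s.up (Gen S)).Nz := by
        obtain ⟨i, hi⟩ := hs
        exact ⟨i, by simpa using hi⟩
      rw [h_M1 (kU k (genU S)) (Gen S) htr1 (s.up (Gen S)) hs']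
      congr 1
      refine (transfer e he
        (fun P => (P.deg : ℤ) * P.mo (s.up (Gen S)))
        (fun v => v.mo s * (Idx (fun j => v.res (S j)) k : ℤ)) ?_ ?_ ?_).1
      · intro P hP
        have : P.mo (s.up (Gen S)) = 0 := by
          refine mo_trivial P s hs fun x => ?_
          by_contra h0
          exact hP ⟨x, h0⟩
        simp [this]
      · intro v hv
        have : Idx (fun j => v.res (S j)) k = 0 := not_not.1 hv
        simp [this]
      · intro P
        show ((P.1.deg : ℕ) : ℤ) * P.1.mo (s.up (Gen S)) = _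
        rw [mo_gauss (e P).1 P.1 s (hG P).1.ordK, (hG P).2, mul_comm]
    · rw [h4 hk]
      have h0 : ∀ v : DV k K, Idx (fun j => v.res (S j)) k = 0 := by
        intro v
        by_contra h
        exact hk (h_GE k K (Gen S) J v S (genU S) hS hU h).1
      simp [h0]

end Pool.Agent.H65.KN
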