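import Pool.Agent.H65.KN.Indep

/-!
Kernel of supercritical collections, module G5: places of the generic curve
-/

namespace Pool.Agent.H65.KN

open SC

/-- the number of non pivots -/
theorem card_nonpivot {K J : Type} [Field K] [Fintype J] (S : J → Sys K) (i0 : ∀ j, Fin (S j).r) :
    Nat.card {x : Var S // x.2 ≠ i0 x.1} + Fintype.card J = Nat.card (Var S) := by
  have h1 := Set.ncard_add_ncard_compl ({x : Var S | x.2 ≠ i0 x.1})
  rw [← h1]
  have h2 : ({x : Var S | x.2 ≠ i0 x.1}).ncard = Nat.card {x : Var S // x.2 ≠ i0 x.1} :=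
    (Nat.card_coe_set_eq _).symm
  have h3 : ({x : Var S | x.2 ≠ i0 x.1})ᶜ = Set.range (fun j : J => (⟨j, i0 j⟩ : Var S)) := by
    ext ⟨j, i⟩
    simp only [Set.mem_compl_iff, Set.mem_ofPred_eq, not_not, Set.mem_range]
    constructor
    · intro h
      exact ⟨j, by rw [h]⟩
    · rintro ⟨j', h⟩
      cases h
      rfl
  have h4 : (Set.range (fun j : J => (⟨j, i0 j⟩ : Var S))).ncard = Fintype.card J := by
    rw [← Set.image_univ, Set.ncard_image_of_injective _ (fun j j' h => by simpa using congrArg Sigma.fst h),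
      Set.ncard_univ, Nat.card_eq_fintype_card]
  rw [h2, h3, h4]

/-- the reduced relations -/
theorem reduced_rel {k K k' L J : Type} [Field k] [Field K] [Field k'] [Field L] [Algebra k K] [Algebra K L]
    [Algebra k' L] (v : DV k K) (w : DV k' L) (e : ℕ) (hve : Over v w e) (φ : v.Res →+* w.Res)
    (hφ : ResCompat v w φ) (S : J → Sys K) (U : Var S → L) (hS : ∀ j, (S j).Nz)
    (hrel : ∀ j, ∑ i, algebraMap K L ((S j).s i) * U ⟨j, i⟩ = 0) (hU0 : ∀ x, 0 ≤ w.ord (U x)) (j : J) :
    ∑ i, φ ((v.res (S j)).s i) * w.red (U ⟨j, i⟩) = 0 := by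
  have h1 : ∑ i, algebraMap K L ((S j).s i * v.unif ^ (-v.mo (S j))) * U ⟨j, i⟩ = 0 := by
    have h2 : ∀ i, algebraMap K L ((S j).s i * v.unif ^ (-v.mo (S j))) * U ⟨j, i⟩ =
        algebraMap K L (v.unif ^ (-v.mo (S j))) * (algebraMap K L ((S j).s i) * U ⟨j, i⟩) := by
      intro i
      rw [map_mul]
      ring
    simp_rw [h2]
    rw [← Finset.mul_sum, hrel j, mul_zero]
  have h3 : ∀ i, 0 ≤ w.ord (algebraMap K L ((S j).s i * v.unif ^ (-v.mo (S j)))) := by
    intro i
    rw [hve.2]
    exact mul_nonneg (Int.natCast_nonneg _) (scaled_nonneg v (hS j) i)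
  have h4 := congrArg w.red h1
  rw [red_zero, red_sum w _ _ fun i _ => nonneg_mul w (h3 i) (hU0 _)] at h4
  rw [← h4]
  refine Finset.sum_congr rfl fun i _ => ?_
  rw [red_mul w (h3 i) (hU0 _), ← hφ _ (scaled_nonneg v (hS j) i)]

/-- G5 -/
theorem g5 (h_V2 : T_V2) (h_V2r : T_V2r) (h_V3b : T_V3b) (h_G4 : T_G4) (h_G4u : T_G4u) (h_G4t : T_G4t) :
    T_G5 := by
  intro k K L J _ _ _ _ _ _ _ _ S U w hS hU hk htr _ hnt
  obtain ⟨v, e, hve⟩ := h_V2 k K (kU k U) L w hnt
  obtain ⟨φ, hφ⟩ := h_V2r k K (kU k U) L v w e hve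
  have hUm : ∀ x, U x ∈ kU k U := fun x => IntermediateField.subset_adjoin _ _ ⟨x, rfl⟩
  let u : Var S → kU k U := fun x => ⟨U x, hUm x⟩
  have hU0 : ∀ x, w.ord (U x) = 0 := fun x => w.ord_base (u x)
  have hU0' : ∀ x, 0 ≤ w.ord (U x) := fun x => (hU0 x).ge
  have hpiv : ∀ j, ∃ i, (S j).s i ≠ 0 ∧ v.ord ((S j).s i) = v.mo (S j) := fun j => (mo_spec v (hS j)).1
  choose i0 hi0 using hpiv
  have hrelred := reduced_rel v w e hve φ hφ S U hS hU.rel hU0'
  have hind : letI : Algebra v.Res w.Res := φ.toAlgebra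
      AlgebraicIndependent v.Res (fun x : {x : Var S // x.2 ≠ i0 x.1} => w.red (U x.1)) := by
    let instF : Algebra v.Res w.Res := φ.toAlgebra
    let instk : Algebra k w.Res := ((algebraMap (kU k U) w.Res).comp (algebraMap k (kU k U))).toAlgebra
    have ht1 : IsScalarTower k (kU k U) w.Res := IsScalarTower.of_algebraMap_eq fun c => rfl
    have ht2 : IsScalarTower k v.Res w.Res := IsScalarTower.of_algebraMap_eq fun c => by
      have h1 : algebraMap v.Res w.Res (algebraMap k v.Res c) = φ (v.red (algebraMap k K c)) := by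
        rw [algebraMap_res]
        rfl
      rw [h1, hφ _ (by rw [v.ord_base]), ← IsScalarTower.algebraMap_apply k K L]
      have h2 : algebraMap k w.Res c = algebraMap (kU k U) w.Res (algebraMap k (kU k U) c) := rfl
      rw [h2, algebraMap_res]
      rfl
    have hxk : AlgebraicIndependent k (fun x => w.red (U x)) := by
      have h1 : AlgebraicIndependent k u := by
        refine AlgebraicIndependent.of_comp (IsScalarTower.toAlgHom k (kU k U) L) ?_
        exact hk
      have h2 := h1.map' (f := IsScalarTower.toAlgHom k (kU k U) w.Res) (algebraMap (kU k U) w.Res).injective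
      have h3 : (⇑(IsScalarTower.toAlgHom k (kU k U) w.Res) ∘ u) = fun x => w.red (U x) := by
        funext x
        exact algebraMap_res w (u x)
      rwa [h3] at h2
    refine indep_of_count (k := k) (F := v.Res) (M := w.Res) (fun x => w.red (U x)) hxk (Fintype.card J)
      (h_V3b k K v _ htr) {x : Var S | x.2 ≠ i0 x.1} (card_nonpivot S i0).le ?_
    intro a
    by_cases ha : a.2 ≠ i0 a.1
    · exact IntermediateField.subset_adjoin _ _ ⟨⟨a, ha⟩, rfl⟩
    · rw [not_not] at ha
      obtain ⟨j, i⟩ := a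
      simp only at ha
      subst ha
      have h1 := hrelred j
      have h2 : (v.res (S j)).s (i0 j) ≠ 0 := (res_ne_zero v (hS j) _).2 (hi0 j)
      have h3 : φ ((v.res (S j)).s (i0 j)) ≠ 0 := by
        rw [Ne, map_eq_zero]
        exact h2
      rw [← Finset.add_sum_erase _ _ (Finset.mem_univ (i0 j))] at h1
      have h4 : w.red (U ⟨j, i0 j⟩) = -(∑ i ∈ Finset.univ.erase (i0 j),
          φ ((v.res (S j)).s i) * w.red (U ⟨j, i⟩)) / φ ((v.res (S j)).s (i0 j)) := by
        rw [eq_div_iff h3]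
        linear_combination h1
      have hm : ∀ c : v.Res, φ c ∈ IntermediateField.adjoin v.Res
          (Set.range fun w' : {x : Var S | x.2 ≠ i0 x.1} => w.red (U w')) := fun c =>
        IntermediateField.algebraMap_mem _ c
      rw [h4]
      refine div_mem (neg_mem (sum_mem fun i hi => mul_mem (hm _) ?_)) (hm _)
      exact IntermediateField.subset_adjoin _ _ ⟨⟨⟨j, i⟩, Finset.ne_of_mem_erase hi⟩, rfl⟩
  obtain ⟨w0, hw0⟩ := h_G4 k K L J v S U hS hU
  have hord := h_G4u k K k (kU k U) L J v w0 w S U e φ i0 hS hU hw0 hve hφ hU0' hi0 hind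
  exact ⟨v, h_G4t k K k (kU k U) L J v w0 w S U hord hw0⟩

end Pool.Agent.H65.KN
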