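import Pool.Agent.H88.KN.Targets

/-!
MP_b5bf4a_co, dense range: one excursion (helper65).
-/

namespace Pool.Agent.H65.KN

open Finset Pool.Agent.H88.KN

lemma lip {a : ℤ → ℤ} (ha : ∀ i, a (i + 1) = a i + 1 ∨ a (i + 1) = a i - 1) (x : ℤ) (k : ℕ) :
    |a (x + k) - a x| ≤ k := by
  induction k with
  | zero => simp
  | succ k ih =>
    have h1 := ha (x + k)
    have h2 : x + ((k + 1 : ℕ) : ℤ) = x + k + 1 := by push_cast; ring
    rw [h2]
    rw [abs_le] at ih ⊢
    push_cast
    rcases h1 with h1 | h1 <;> constructor <;> omega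

lemma lip' {a : ℤ → ℤ} (ha : ∀ i, a (i + 1) = a i + 1 ∨ a (i + 1) = a i - 1) {x y : ℤ}
    (h : x ≤ y) : |a y - a x| ≤ y - x := by
  have h1 := lip ha x (y - x).toNat
  have h2 : (((y - x).toNat : ℕ) : ℤ) = y - x := Int.toNat_of_nonneg (by omega)
  rw [h2] at h1
  rwa [add_sub_cancel] at h1

lemma par {a : ℤ → ℤ} (ha : ∀ i, a (i + 1) = a i + 1 ∨ a (i + 1) = a i - 1) (x : ℤ) (k : ℕ) :
    (a (x + k) - a x - k) % 2 = 0 := by
  induction k with
  | zero => simp
  | succ k ih =>
    have h1 := ha (x + k)
    have h2 : x + ((k + 1 : ℕ) : ℤ) = x + k + 1 := by push_cast; ring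
    rw [h2]
    push_cast
    rcases h1 with h1 | h1 <;> omega

/-- All steps up. -/
lemma all_up {a : ℤ → ℤ} (ha : ∀ i, a (i + 1) = a i + 1 ∨ a (i + 1) = a i - 1) {s m : ℤ}
    (h0 : a (s + 1) = a s + 1)
    (hn : ∀ y, s < y → y ≤ m → ¬ (a (y - 1) < a y ∧ a (y + 1) < a y)) (k : ℕ)
    (hk : s + k ≤ m) : a (s + k) = a s + k ∧ a (s + k + 1) = a s + k + 1 := by
  induction k with
  | zero => simpa using h0
  | succ k ih =>
    have h2 : s + ((k + 1 : ℕ) : ℤ) = s + k + 1 := by push_cast; ring
    rw [h2] at hk ⊢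
    obtain ⟨i1, i2⟩ := ih (by omega)
    have h3 := hn (s + k + 1) (by omega) hk
    have h4 : s + k + 1 - 1 = s + (k : ℤ) := by ring
    rw [h4] at h3
    have h5 := ha (s + k + 1)
    push_cast
    refine ⟨by omega, ?_⟩
    rcases h5 with h5 | h5
    · omega
    · exact absurd ⟨by omega, by omega⟩ h3

/-- All steps down. -/
lemma all_down {a : ℤ → ℤ} (ha : ∀ i, a (i + 1) = a i + 1 ∨ a (i + 1) = a i - 1) {t m : ℤ}
    (h0 : a (t - 1) = a t + 1)
    (hn : ∀ y, m ≤ y → y < t → ¬ (a (y - 1) < a y ∧ a (y + 1) < a y)) (k : ℕ)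
    (hk : m ≤ t - k) : a (t - k) = a t + k ∧ a (t - k - 1) = a t + k + 1 := by
  induction k with
  | zero => simpa using h0
  | succ k ih =>
    have h2 : t - ((k + 1 : ℕ) : ℤ) = t - k - 1 := by push_cast; ring
    rw [h2] at hk ⊢
    obtain ⟨i1, i2⟩ := ih (by omega)
    have h3 := hn (t - k - 1) (by omega) (by omega)
    have h4 : t - k - 1 + 1 = t - (k : ℤ) := by ring
    rw [h4] at h3
    have h5 := ha (t - k - 1 - 1)
    have h6 : t - k - 1 - 1 + 1 = t - (k : ℤ) - 1 := by ring
    rw [h6] at h5
    push_cast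
    refine ⟨by omega, ?_⟩
    rcases h5 with h5 | h5
    · exact absurd ⟨by omega, by omega⟩ h3
    · omega

/-- No local maximum between `p` and `q`. -/
lemma valley {a : ℤ → ℤ} (ha : ∀ i, a (i + 1) = a i + 1 ∨ a (i + 1) = a i - 1) {p q : ℤ}
    (hn : ∀ y, p < y → y < q → ¬ (a (y - 1) < a y ∧ a (y + 1) < a y)) {x : ℤ} (h1 : p ≤ x)
    (h2 : x ≤ q) : a x = a p - (x - p) ∨ a x = a q - (q - x) := by
  have hup : ∀ (k : ℕ) (y : ℤ), y + k + 1 = q → p ≤ y → a (y + 1) = a y + 1 →
      a y = a q - (q - y) := by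
    intro k
    induction k with
    | zero =>
      intro y hy _ hu
      have : y + 1 = q := by push_cast at hy; omega
      rw [← this]; omega
    | succ k ih =>
      intro y hy hpy hu
      push_cast at hy
      have h3 := hn (y + 1) (by omega) (by omega)
      rw [add_sub_cancel_right] at h3
      rcases ha (y + 1) with h5 | h5
      · have := ih (y + 1) (by omega) (by omega) h5
        omega
      · exact absurd ⟨by omega, by omega⟩ h3
  have key : ∀ k : ℕ, p + k ≤ q →
      a (p + k) = a p - k ∨ a (p + k) = a q - (q - (p + k)) := by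
    intro k
    induction k with
    | zero => intro _; left; simp
    | succ k ih =>
      intro hk
      have h2 : p + ((k + 1 : ℕ) : ℤ) = p + k + 1 := by push_cast; ring
      rw [h2] at hk ⊢
      have hcase : a (p + k) = a q - (q - (p + k)) → a (p + k + 1) = a q - (q - (p + k + 1)) := by
        intro h
        have h3 := lip' ha hk
        rw [abs_le] at h3
        rcases ha (p + k) with h5 | h5 <;> omega
      rcases ih (by omega) with h | h
      · rcases ha (p + k) with h5 | h5
        · right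
          refine hcase (hup (q - (p + k) - 1).toNat (p + k) ?_ (by omega) h5)
          have : (((q - (p + k) - 1).toNat : ℕ) : ℤ) = q - (p + k) - 1 :=
            Int.toNat_of_nonneg (by omega)
          omega
        · left
          push_cast
          omega
      · right
        exact hcase h
  have h3 := key (x - p).toNat
  have h4 : (((x - p).toNat : ℕ) : ℤ) = x - p := Int.toNat_of_nonneg (by omega)
  rw [h4, add_sub_cancel] at h3
  exact h3 h2

theorem pf_EX : T_EX := by
  intro a ha r s t hst has hat hin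
  -- the first step is up and the last one is down
  have hs2 : s + 2 ≤ t := by
    by_contra h
    have h1 : s + 1 = t := by omega
    have h2 := ha s
    rw [h1] at h2
    omega
  have h0 : a (s + 1) = a s + 1 := by
    have h1 := hin (s + 1) (by omega) (by omega)
    rcases ha s with h2 | h2 <;> omega
  have h0' : a (t - 1) = a t + 1 := by
    have h1 := hin (t - 1) (by omega) (by omega)
    have h3 := ha (t - 1)
    rw [sub_add_cancel] at h3
    rcases h3 with h2 | h2 <;> omega
  -- parity
  obtain ⟨B, hB⟩ : ∃ B : ℤ, t - s = 2 * B := by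
    have h1 := par ha s (t - s).toNat
    have h2 : (((t - s).toNat : ℕ) : ℤ) = t - s := Int.toNat_of_nonneg (by omega)
    rw [h2, add_sub_cancel] at h1
    exact ⟨(t - s) / 2, by omega⟩
  have hB1 : 1 ≤ B := by omega
  set m : ℤ := s + B with hm
  -- the two slopes
  have hl : ∀ x, s ≤ x → a x - r ≤ x - s := by
    intro x hx
    have h1 := lip' ha hx
    rw [abs_le] at h1
    omega
  have hr : ∀ x, x ≤ t → a x - r ≤ t - x := by
    intro x hx
    have h1 := lip' ha hx
    rw [abs_le] at h1
    omega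
  have hBr : ((t : ℝ) - s) / 2 = B := by
    have : ((t - s : ℤ) : ℝ) = ((2 * B : ℤ) : ℝ) := by rw [hB]
    push_cast at this
    linarith
  have hmr : (m : ℝ) = s + B := by rw [hm]; push_cast; ring
  have htr : (t : ℝ) = s + 2 * B := by linarith
  by_cases hmax : a (m - 1) < a m ∧ a (m + 1) < a m
  · refine ⟨m, m, 1, 0, by omega, by omega, by omega, by omega, hmax.1, hmax.2, hmax.1, hmax.2,
      by norm_num, le_refl _, by norm_num, ?_⟩
    intro x hx1 hx2
    rw [hBr, one_mul, zero_mul, add_zero]
    rcases le_total x m with h | h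
    · have h1 : ((a x - r : ℤ) : ℝ) ≤ ((x - s : ℤ) : ℝ) := by exact_mod_cast hl x hx1
      have h2 : (x : ℝ) ≤ m := by exact_mod_cast h
      rw [abs_of_nonpos (by linarith)]
      push_cast at h1
      linarith
    · have h1 : ((a x - r : ℤ) : ℝ) ≤ ((t - x : ℤ) : ℝ) := by exact_mod_cast hr x hx2
      have h2 : (m : ℝ) ≤ x := by exact_mod_cast h
      rw [abs_of_nonneg (by linarith)]
      push_cast at h1
      linarith
  · -- the last local maximum before `m`
    have hex1 : ∃ y, s < y ∧ y ≤ m ∧ (a (y - 1) < a y ∧ a (y + 1) < a y) := by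
      by_contra hcon
      push Not at hcon
      have h1 := all_up (m := m) ha h0 (fun y hy1 hy2 h => by
        have := hcon y hy1 hy2 h.1
        omega) B.toNat
      have h2 : ((B.toNat : ℕ) : ℤ) = B := Int.toNat_of_nonneg (by omega)
      rw [h2] at h1
      have h3 := (h1 (le_refl _)).2
      have h4 := hr (s + B + 1) (by omega)
      omega
    have hex2 : ∃ y, m ≤ y ∧ y < t ∧ (a (y - 1) < a y ∧ a (y + 1) < a y) := by
      by_contra hcon
      push Not at hcon
      have h1 := all_down (m := m) ha h0' (fun y hy1 hy2 h => by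
        have := hcon y hy1 hy2 h.1
        omega) B.toNat
      have h2 : ((B.toNat : ℕ) : ℤ) = B := Int.toNat_of_nonneg (by omega)
      rw [h2] at h1
      have h3 := (h1 (by omega)).2
      have h4 := hl (t - B - 1) (by omega)
      omega
    -- choose them extremal
    let F1 := (Finset.Ioc s m).filter (fun y => a (y - 1) < a y ∧ a (y + 1) < a y)
    let F2 := (Finset.Ico m t).filter (fun y => a (y - 1) < a y ∧ a (y + 1) < a y)
    have hF1 : F1.Nonempty := by
      obtain ⟨y, hy1, hy2, hy3⟩ := hex1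
      exact ⟨y, by simp only [F1, Finset.mem_filter, Finset.mem_Ioc]; exact ⟨⟨hy1, hy2⟩, hy3⟩⟩
    have hF2 : F2.Nonempty := by
      obtain ⟨y, hy1, hy2, hy3⟩ := hex2
      exact ⟨y, by simp only [F2, Finset.mem_filter, Finset.mem_Ico]; exact ⟨⟨hy1, hy2⟩, hy3⟩⟩
    obtain ⟨p, hp⟩ : ∃ p, p = F1.max' hF1 := ⟨_, rfl⟩
    obtain ⟨q, hq⟩ : ∃ q, q = F2.min' hF2 := ⟨_, rfl⟩
    have hp1 : p ∈ F1 := by rw [hp]; exact Finset.max'_mem _ _
    have hq1 : q ∈ F2 := by rw [hq]; exact Finset.min'_mem _ _
    have hp2 : ∀ y ∈ F1, y ≤ p := fun y hy => by rw [hp]; exact Finset.le_max' _ _ hy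
    have hq2 : ∀ y ∈ F2, q ≤ y := fun y hy => by rw [hq]; exact Finset.min'_le _ _ hy
    simp only [F1, F2, Finset.mem_filter, Finset.mem_Ioc, Finset.mem_Ico] at hp1 hq1 hp2 hq2
    obtain ⟨⟨p1, p2⟩, p3⟩ := hp1
    obtain ⟨⟨q1, q2⟩, q3⟩ := hq1
    have p4 : p < m := by
      rcases lt_or_eq_of_le p2 with h | h
      · exact h
      · rw [h] at p3; exact absurd p3 hmax
    have q4 : m < q := by
      rcases lt_or_eq_of_le q1 with h | h
      · exact h
      · rw [← h] at q3; exact absurd q3 hmax
    have hn : ∀ y, p < y → y < q → ¬ (a (y - 1) < a y ∧ a (y + 1) < a y) := by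
      intro y hy1 hy2 hy3
      rcases le_total y m with h | h
      · have := hp2 y ⟨⟨by omega, h⟩, hy3⟩
        omega
      · have := hq2 y ⟨⟨h, by omega⟩, hy3⟩
        omega
    have hpq : (0 : ℝ) < (q : ℝ) - p := by
      have : (p : ℝ) < q := by exact_mod_cast (by omega : p < q)
      linarith
    have hpm : (p : ℝ) < m := by exact_mod_cast p4
    have hmq : (m : ℝ) < q := by exact_mod_cast q4
    obtain ⟨α, hα⟩ : ∃ α : ℝ, α = ((q : ℝ) - m) / (q - p) := ⟨_, rfl⟩
    obtain ⟨β, hβ⟩ : ∃ β : ℝ, β = ((m : ℝ) - p) / (q - p) := ⟨_, rfl⟩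
    have hα0 : 0 ≤ α := by rw [hα]; exact div_nonneg (by linarith) hpq.le
    have hβ0 : 0 ≤ β := by rw [hβ]; exact div_nonneg (by linarith) hpq.le
    have hab : α + β = 1 := by
      rw [hα, hβ, ← add_div, div_eq_one_iff_eq hpq.ne']; ring
    have hαq : α * (q - p) = q - m := by rw [hα]; exact div_mul_cancel₀ _ hpq.ne'
    have hβq : β * (q - p) = m - p := by rw [hβ]; exact div_mul_cancel₀ _ hpq.ne'
    refine ⟨p, q, α, β, by omega, by omega, by omega, by omega, p3.1, p3.2, q3.1, q3.2,
      hα0, hβ0, hab, ?_⟩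
    intro x hx1 hx2
    rw [hBr]
    have hα1 : α = 1 - β := by linarith
    rcases le_total x p with h | h
    · have h1 : ((a x - r : ℤ) : ℝ) ≤ ((x - s : ℤ) : ℝ) := by exact_mod_cast hl x hx1
      have h2 : (x : ℝ) ≤ p := by exact_mod_cast h
      rw [abs_of_nonpos (by linarith), abs_of_nonpos (by linarith)]
      push_cast at h1
      have e : α * -((x : ℝ) - p) + β * -((x : ℝ) - q) = m - x := by
        have e1 : α * -((x : ℝ) - p) + β * -((x : ℝ) - q) =
          (α + β) * (p - x) + β * (q - p) := by ring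
        rw [e1, hab, hβq]; ring
      rw [e]
      linarith
    · rcases le_total x q with h' | h'
      · have h2 : (p : ℝ) ≤ x := by exact_mod_cast h
        have h3 : (x : ℝ) ≤ q := by exact_mod_cast h'
        rw [abs_of_nonneg (by linarith), abs_of_nonpos (by linarith)]
        rcases valley ha hn h h' with hv | hv
        · have hv' : (a x : ℝ) = a p - (x - p) := by
            have : ((a x : ℤ) : ℝ) = ((a p - (x - p) : ℤ) : ℝ) := by rw [hv]
            push_cast at this
            exact this
          have h1 : ((a p - r : ℤ) : ℝ) ≤ ((p - s : ℤ) : ℝ) := by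
            exact_mod_cast hl p (by omega)
          push_cast at h1
          have e : (a x : ℝ) - r + (α * ((x : ℝ) - p) + β * -((x : ℝ) - q)) =
              (a p - r) + β * (q - p) - 2 * (β * (x - p)) := by
            rw [hv', hα1]; ring
          rw [e, hβq]
          have := mul_nonneg hβ0 (sub_nonneg.2 h2)
          linarith
        · have hv' : (a x : ℝ) = a q - (q - x) := by
            have : ((a x : ℤ) : ℝ) = ((a q - (q - x) : ℤ) : ℝ) := by rw [hv]
            push_cast at this
            exact this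
          have h1 : ((a q - r : ℤ) : ℝ) ≤ ((t - q : ℤ) : ℝ) := by
            exact_mod_cast hr q (by omega)
          push_cast at h1
          have hβ1 : β = 1 - α := by linarith
          have e : (a x : ℝ) - r + (α * ((x : ℝ) - p) + β * -((x : ℝ) - q)) =
              (a q - r) + α * (q - p) - 2 * (α * (q - x)) := by
            rw [hv', hβ1]; ring
          rw [e, hαq]
          have := mul_nonneg hα0 (sub_nonneg.2 h3)
          linarith
      · have h1 : ((a x - r : ℤ) : ℝ) ≤ ((t - x : ℤ) : ℝ) := by exact_mod_cast hr x hx2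
        have h2 : (q : ℝ) ≤ x := by exact_mod_cast h'
        rw [abs_of_nonneg (by linarith), abs_of_nonneg (by linarith)]
        push_cast at h1
        have e : α * ((x : ℝ) - p) + β * ((x : ℝ) - q) = x - m := by
          have e1 : α * ((x : ℝ) - p) + β * ((x : ℝ) - q) =
            (α + β) * (x - q) + α * (q - p) := by ring
          rw [e1, hab, hαq]; ring
        rw [e]
        linarith

end Pool.Agent.H65.KN
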