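import Pool.Agent.H65.KN.Val

/-!
Kernel of supercritical collections: independence by counting transcendence degrees
-/

namespace Pool.Agent.H65.KN

open SC Cardinal

/-- a field generated by a set is algebraic over the algebra generated by the set -/
theorem isAlgebraic_of_adjoin_eq_top {F E : Type} [Field F] [Field E] [Algebra F E] (S : Set E)
    (h : IntermediateField.adjoin F S = ⊤) : Algebra.IsAlgebraic (Algebra.adjoin F S) E := by
  refine ⟨fun x => ?_⟩
  have hx : x ∈ IntermediateField.adjoin F S := by rw [h]; trivial
  obtain ⟨r, hr, s, hs, rfl⟩ := IntermediateField.mem_adjoin_iff_div.1 hx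
  have h1 : IsAlgebraic (Algebra.adjoin F S) r := isAlgebraic_algebraMap (⟨r, hr⟩ : Algebra.adjoin F S)
  have h2 : IsAlgebraic (Algebra.adjoin F S) s := isAlgebraic_algebraMap (⟨s, hs⟩ : Algebra.adjoin F S)
  rw [div_eq_mul_inv]
  exact h1.mul h2.inv

/-- counting lemma: independence over `k` of many elements of `F(x_w)` forces independence over `F` -/
theorem indep_of_count {k F M V : Type} [Field k] [Field F] [Field M] [Algebra k F] [Algebra F M] [Algebra k M]
    [IsScalarTower k F M] [Finite V] (x : V → M) (hx : AlgebraicIndependent k x) (n : ℕ)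
    (hn : Algebra.trdeg k F ≤ n) (W : Set V) (hW : Nat.card W + n ≤ Nat.card V)
    (hmem : ∀ v, x v ∈ IntermediateField.adjoin F (Set.range fun w : W => x w)) :
    AlgebraicIndependent F (fun w : W => x w) := by
  set E := IntermediateField.adjoin F (Set.range fun w : W => x w) with hE
  let y : V → E := fun v => ⟨x v, hmem v⟩
  have hyx : (fun v => ((y v : E) : M)) = x := rfl
  have htow : IsScalarTower k F E := inferInstance
  have htow2 : IsScalarTower k E M := IsScalarTower.of_algebraMap_eq fun c => by
    rw [IsScalarTower.algebraMap_apply k F M, IsScalarTower.algebraMap_apply k F E]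
    rfl
  -- independence over `k` inside `E`
  have hyk : AlgebraicIndependent k y := by
    refine AlgebraicIndependent.of_comp (IsScalarTower.toAlgHom k E M) ?_
    exact hx
  have h1 : #V ≤ Algebra.trdeg k E := hyk.cardinalMk_le_trdeg
  have h2 : Algebra.trdeg k F + Algebra.trdeg F E = Algebra.trdeg k E := trdeg_add_eq k F
  have hyW : IntermediateField.adjoin F (Set.range fun w : W => y w) = ⊤ := by
    have h3 : IntermediateField.map E.val (IntermediateField.adjoin F (Set.range fun w : W => y w)) =
        IntermediateField.map E.val ⊤ := by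
      have h5 : (E.val '' Set.range fun w : W => y w) = Set.range fun w : W => x w := by
        rw [← Set.range_comp]
        rfl
      rw [IntermediateField.adjoin_map, ← AlgHom.fieldRange_eq_map, IntermediateField.fieldRange_val, h5]
    exact IntermediateField.map_injective _ h3
  have h4 : #W ≤ Algebra.trdeg F E := by
    have hVf : #V = (Nat.card V : ℕ) := (Nat.cast_card).symm
    have hWf : #W = (Nat.card W : ℕ) := (Nat.cast_card).symm
    rw [hVf] at h1
    rw [hWf]
    by_contra hlt
    rw [not_le] at hlt
    have h5 : Algebra.trdeg F E < ℵ₀ := lt_of_lt_of_le hlt (natCast_lt_aleph0).le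
    obtain ⟨m, hm⟩ := lt_aleph0.1 h5
    rw [hm] at hlt h2
    have hlt' : m < Nat.card W := by exact_mod_cast hlt
    have h6 : ((Nat.card V : ℕ) : Cardinal) ≤ ((n + m : ℕ) : Cardinal) := by
      refine le_trans h1 ?_
      rw [← h2]
      push_cast
      gcongr
    have h7 : Nat.card V ≤ n + m := by exact_mod_cast h6
    omega
  have := isAlgebraic_of_adjoin_eq_top _ hyW
  have h8 : IsTranscendenceBasis F (fun w : W => y w) :=
    Algebra.IsAlgebraic.isTranscendenceBasis_of_le_trdeg_of_finite F _ h4
  have h9 : AlgebraicIndependent F (fun w : W => y w) := h8.1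
  exact h9.map' (f := IsScalarTower.toAlgHom F E M) Subtype.val_injective

end Pool.Agent.H65.KN
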