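import Pool.Agent.H88.KN.Targets

/-!
MP_b5bf4a_co, dense range: all excursions of an interval (helper65).
-/

namespace Pool.Agent.H65.KN

open Finset Pool.Agent.H88.KN

lemma sum_two {s e p q : ℤ} (hp : p ∈ Ico s e) (hq : q ∈ Ico s e) (μ w : ℤ → ℝ) (c α β : ℝ) :
    ∑ i ∈ Ico s e, (μ i + c * (α * (if i = p then 1 else 0) + β * (if i = q then 1 else 0))) *
      w i = (∑ i ∈ Ico s e, μ i * w i) + c * (α * w p + β * w q) := by
  have h1 : ∀ i ∈ Ico s e,
      (μ i + c * (α * (if i = p then 1 else 0) + β * (if i = q then 1 else 0))) * w i =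
      μ i * w i + ((if i = p then c * α * w p else 0) + (if i = q then c * β * w q else 0)) := by
    intro i _
    by_cases h1 : i = p
    · by_cases h2 : i = q
      · rw [if_pos h1, if_pos h2, if_pos h1, if_pos h2, ← h1, ← h2]; ring
      · rw [if_pos h1, if_neg h2, if_pos h1, if_neg h2, ← h1]; ring
    · by_cases h2 : i = q
      · rw [if_neg h1, if_pos h2, if_neg h1, if_pos h2, ← h2]; ring
      · rw [if_neg h1, if_neg h2, if_neg h1, if_neg h2]; ring
  rw [Finset.sum_congr rfl h1, Finset.sum_add_distrib, Finset.sum_add_distrib,
    Finset.sum_ite_eq', Finset.sum_ite_eq', if_pos hp, if_pos hq]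
  ring

theorem pf_PK (hEX : T_EX) (hEC : T_EC) : T_PK := by
  intro a ha r j hj
  have key : ∀ N : ℕ, ∀ s e : ℤ, s ≤ e → (e - s).toNat = N → a s ≤ r → a e ≤ r →
    ((Finset.Ico s e).filter (fun i => a i < a (i + 1) ∧ r ≤ a i)).card ≤ j →
    ∃ μ : ℤ → ℝ, (∀ i, 0 ≤ μ i) ∧
      (∀ i, μ i ≠ 0 → s < i ∧ i < e ∧ a (i - 1) < a i ∧ a (i + 1) < a i) ∧
      (j : ℝ) * ∑ i ∈ Finset.Ico s e, μ i =
        ((Finset.Ico s e).filter (fun i => a i < a (i + 1) ∧ r ≤ a i)).card ∧
      ∀ x : ℤ, s ≤ x → x ≤ e →
        (a x : ℝ) - r ≤ ∑ i ∈ Finset.Ico s e, μ i * max 0 ((j : ℝ) - |(x : ℝ) - i|) := by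
    intro N
    induction N using Nat.strong_induction_on with
    | _ N ih =>
    intro s e hse hN has hae hc
    have hjr : (0 : ℝ) < j := by exact_mod_cast hj
    rcases eq_or_lt_of_le hse with h | hlt
    · -- empty interval
      refine ⟨fun _ => 0, fun _ => le_refl _, fun i hi => absurd rfl hi, ?_, ?_⟩
      · rw [← h, Finset.Ico_self]; simp
      · intro x hx1 hx2
        rw [← h, Finset.Ico_self, Finset.sum_empty]
        have : x = s := by omega
        rw [this]
        have : (a s : ℝ) ≤ r := by exact_mod_cast has
        linarith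
    · by_cases hs1 : a (s + 1) ≤ r
      · -- one step
        have hins : Ico s e = insert s (Ico (s + 1) e) := by
          ext x
          simp only [Finset.mem_Ico, Finset.mem_insert]
          omega
        have hnot : s ∉ Ico (s + 1) e := by simp
        have hfil : (Ico s e).filter (fun i => a i < a (i + 1) ∧ r ≤ a i) =
            (Ico (s + 1) e).filter (fun i => a i < a (i + 1) ∧ r ≤ a i) := by
          rw [hins, Finset.filter_insert, if_neg]
          rintro ⟨h1, h2⟩
          omega
        rw [hfil] at hc
        obtain ⟨μ, m1, m2, m3, m4⟩ := ih (e - (s + 1)).toNat (by omega) (s + 1) e (by omega) rfl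
          hs1 hae hc
        have hμs : μ s = 0 := by
          by_contra h
          have := (m2 s h).1
          omega
        refine ⟨μ, m1, fun i hi => ?_, ?_, ?_⟩
        · obtain ⟨k1, k2⟩ := m2 i hi
          exact ⟨by omega, k2⟩
        · rw [hfil, hins, Finset.sum_insert hnot, hμs, zero_add]
          exact m3
        · intro x hx1 hx2
          rw [hins, Finset.sum_insert hnot, hμs, zero_mul, zero_add]
          rcases eq_or_lt_of_le hx1 with h | h
          · rw [← h]
            have h1 : (a s : ℝ) ≤ r := by exact_mod_cast has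
            have h2 : 0 ≤ ∑ i ∈ Ico (s + 1) e, μ i * max 0 ((j : ℝ) - |(s : ℝ) - i|) :=
              Finset.sum_nonneg fun i _ => mul_nonneg (m1 i) (le_max_left _ _)
            linarith
          · exact m4 x (by omega) hx2
      · -- an excursion
        push Not at hs1
        have has' : a s = r := by rcases ha s with h | h <;> omega
        -- the end of the excursion
        let F := (Finset.Ioc s e).filter (fun y => a y ≤ r)
        have hF : F.Nonempty := ⟨e, by
          simp only [F, Finset.mem_filter, Finset.mem_Ioc]; exact ⟨⟨hlt, le_refl _⟩, hae⟩⟩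
        obtain ⟨t, ht⟩ : ∃ t, t = F.min' hF := ⟨_, rfl⟩
        have ht1 : t ∈ F := by rw [ht]; exact Finset.min'_mem _ _
        have ht2 : ∀ y ∈ F, t ≤ y := fun y hy => by rw [ht]; exact Finset.min'_le _ _ hy
        simp only [F, Finset.mem_filter, Finset.mem_Ioc] at ht1 ht2
        obtain ⟨⟨t1, t2⟩, t3⟩ := ht1
        have hin : ∀ i, s < i → i < t → r < a i := by
          intro i hi1 hi2
          by_contra h
          have := ht2 i ⟨⟨hi1, by omega⟩, by omega⟩
          omega
        have hat : a t = r := by
          have h1 : t ≠ s + 1 := by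
            intro h
            rw [h] at t3
            omega
          have h2 := hin (t - 1) (by omega) (by omega)
          have h3 := ha (t - 1)
          rw [sub_add_cancel] at h3
          rcases h3 with h3 | h3 <;> omega
        obtain ⟨p, q, α, β, p1, p2, q1, q2, p3, p4, q3, q4, hα, hβ, hab, hdom⟩ :=
          hEX a ha r s t t1 has' hat hin
        have hEC' := hEC a ha r s t t1 has' hat hin
        obtain ⟨B, hB⟩ : ∃ B : ℕ, B = ((Finset.Ico s t).filter
          (fun i => a i < a (i + 1) ∧ r ≤ a i)).card := ⟨_, rfl⟩
        rw [← hB] at hEC'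
        have hun : Ico s e = Ico s t ∪ Ico t e := by
          ext x
          simp only [Finset.mem_Ico, Finset.mem_union]
          omega
        have hdis : Disjoint (Ico s t) (Ico t e) := by
          rw [Finset.disjoint_left]
          intro x hx hx'
          rw [Finset.mem_Ico] at hx hx'
          omega
        have hcard : ((Finset.Ico s e).filter (fun i => a i < a (i + 1) ∧ r ≤ a i)).card =
            B + ((Finset.Ico t e).filter (fun i => a i < a (i + 1) ∧ r ≤ a i)).card := by
          rw [hun, Finset.filter_union, Finset.card_union_of_disjoint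
            (Finset.disjoint_filter_filter hdis), ← hB]
        have hBj : B ≤ j := by omega
        obtain ⟨μ, m1, m2, m3, m4⟩ := ih (e - t).toNat (by omega) t e t2 rfl t3 hae (by omega)
        have hp : p ∈ Ico s e := by rw [Finset.mem_Ico]; omega
        have hq : q ∈ Ico s e := by rw [Finset.mem_Ico]; omega
        have hcnn : (0 : ℝ) ≤ (B : ℝ) / j := by positivity
        have hBr : ((t : ℝ) - s) / 2 = B := by
          have : ((2 * (B : ℤ) : ℤ) : ℝ) = ((t - s : ℤ) : ℝ) := by rw [hEC']
          push_cast at this
          linarith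
        -- sums with `μ`
        have hsum : ∀ w : ℤ → ℝ, ∑ i ∈ Ico s e, μ i * w i = ∑ i ∈ Ico t e, μ i * w i := by
          intro w
          rw [hun, Finset.sum_union hdis]
          have : ∑ i ∈ Ico s t, μ i * w i = 0 := by
            apply Finset.sum_eq_zero
            intro i hi
            rw [Finset.mem_Ico] at hi
            have : μ i = 0 := by
              by_contra h
              have := (m2 i h).1
              omega
            rw [this, zero_mul]
          rw [this, zero_add]
        refine ⟨fun i => μ i + (B / j : ℝ) * (α * (if i = p then 1 else 0) +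
          β * (if i = q then 1 else 0)), fun i => ?_, fun i hi => ?_, ?_, ?_⟩
        · have h1 : (0 : ℝ) ≤ if i = p then 1 else 0 := by split_ifs <;> norm_num
          have h2 : (0 : ℝ) ≤ if i = q then 1 else 0 := by split_ifs <;> norm_num
          exact add_nonneg (m1 i) (mul_nonneg hcnn
            (add_nonneg (mul_nonneg hα h1) (mul_nonneg hβ h2)))
        · by_cases h1 : i = p
          · rw [h1]; exact ⟨p1, by omega, p3, p4⟩
          · by_cases h2 : i = q
            · rw [h2]; exact ⟨q1, by omega, q3, q4⟩
            · simp only [h1, h2, if_false] at hi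
              have h3 : μ i ≠ 0 := by
                intro h
                apply hi
                rw [h]; ring
              obtain ⟨k1, k2⟩ := m2 i h3
              exact ⟨by omega, k2⟩
        · have h1 := sum_two hp hq μ (fun _ => 1) (B / j : ℝ) α β
          simp only [mul_one] at h1
          rw [h1, hab]
          have h2 := hsum (fun _ => 1)
          simp only [mul_one] at h2
          rw [h2, mul_add, m3, hcard]
          push_cast
          rw [mul_one, mul_div_cancel₀ _ hjr.ne']
          ring
        · intro x hx1 hx2
          rw [sum_two hp hq μ (fun i => max 0 ((j : ℝ) - |(x : ℝ) - i|)) (B / j : ℝ) α β, hsum]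
          have hn1 : 0 ≤ ∑ i ∈ Ico t e, μ i * max 0 ((j : ℝ) - |(x : ℝ) - i|) :=
            Finset.sum_nonneg fun i _ => mul_nonneg (m1 i) (le_max_left _ _)
          have hn2 : 0 ≤ (B / j : ℝ) * (α * max 0 ((j : ℝ) - |(x : ℝ) - p|) +
              β * max 0 ((j : ℝ) - |(x : ℝ) - q|)) :=
            mul_nonneg hcnn (add_nonneg (mul_nonneg hα (le_max_left _ _))
              (mul_nonneg hβ (le_max_left _ _)))
          rcases le_total x t with h | h
          · have h1 := hdom x hx1 h
            rw [hBr] at h1
            have h2 : α * ((j : ℝ) - |(x : ℝ) - p|) ≤ α * max 0 ((j : ℝ) - |(x : ℝ) - p|) :=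
              mul_le_mul_of_nonneg_left (le_max_right _ _) hα
            have h3 : β * ((j : ℝ) - |(x : ℝ) - q|) ≤ β * max 0 ((j : ℝ) - |(x : ℝ) - q|) :=
              mul_le_mul_of_nonneg_left (le_max_right _ _) hβ
            obtain ⟨E, hE⟩ : ∃ E : ℝ, E = α * |(x : ℝ) - p| + β * |(x : ℝ) - q| := ⟨_, rfl⟩
            have hE0 : 0 ≤ E := by
              rw [hE]
              exact add_nonneg (mul_nonneg hα (abs_nonneg _)) (mul_nonneg hβ (abs_nonneg _))
            have h4 : (B / j : ℝ) * (j - E) ≤ (B / j : ℝ) * (α * max 0 ((j : ℝ) - |(x : ℝ) - p|) +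
                β * max 0 ((j : ℝ) - |(x : ℝ) - q|)) := by
              apply mul_le_mul_of_nonneg_left _ hcnn
              have e1 : (j : ℝ) - E = α * ((j : ℝ) - |(x : ℝ) - p|) +
                  β * ((j : ℝ) - |(x : ℝ) - q|) := by
                have : (j : ℝ) = (α + β) * j := by rw [hab, one_mul]
                rw [hE]
                linear_combination this
              rw [e1]
              exact add_le_add h2 h3
            have h5 : (B : ℝ) - E ≤ (B / j : ℝ) * (j - E) := by
              have e2 : (B / j : ℝ) * (j - E) = B - (B / j : ℝ) * E := by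
                rw [mul_sub, div_mul_cancel₀ _ hjr.ne']
              rw [e2]
              have h6 : (B / j : ℝ) ≤ 1 := by
                rw [div_le_one hjr]; exact_mod_cast hBj
              have := mul_le_mul_of_nonneg_right h6 hE0
              linarith
            rw [← hE] at h1
            linarith
          · have := m4 x h hx2
            linarith
  intro s e hse has hae hc
  exact key _ s e hse rfl has hae hc

end Pool.Agent.H65.KN
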