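import Pool.Agent.H93.SC.Targets

/-!
Kernel of supercritical collections: basic lemmas on valuations, reductions and systems
-/

namespace Pool.Agent.H65.KN

open SC

section

variable {k K : Type} [Field k] [Field K] [Algebra k K] (v : DV k K)

theorem ord_pow (x : K) (n : ℕ) : v.ord (x ^ n) = n * v.ord x := by
  by_cases hx : x = 0
  · subst hx
    rcases Nat.eq_zero_or_pos n with rfl | hn
    · simp [v.ord_one]
    · rw [zero_pow hn.ne', v.ord_zero, mul_zero]
  · induction n with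
    | zero => simp [v.ord_one]
    | succ n ih =>
      rw [pow_succ, v.ord_mul _ _ (pow_ne_zero n hx) hx, ih]
      push_cast
      ring

theorem ord_zpow (x : K) (n : ℤ) : v.ord (x ^ n) = n * v.ord x := by
  cases n with
  | ofNat n =>
    rw [Int.ofNat_eq_natCast, zpow_natCast, ord_pow]
  | negSucc n =>
    rw [zpow_negSucc, v.ord_inv, ord_pow]
    rw [Int.negSucc_eq]
    push_cast
    ring

theorem unif_ne_zero : v.unif ≠ 0 := v.ord_surj.choose_spec.1

theorem ord_unif : v.ord v.unif = 1 := v.ord_surj.choose_spec.2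

theorem nonneg_add {x y : K} (hx : 0 ≤ v.ord x) (hy : 0 ≤ v.ord y) : 0 ≤ v.ord (x + y) :=
  (add_mem (show x ∈ v.vs from hx) (show y ∈ v.vs from hy) : x + y ∈ v.vs)

theorem nonneg_mul {x y : K} (hx : 0 ≤ v.ord x) (hy : 0 ≤ v.ord y) : 0 ≤ v.ord (x * y) :=
  (mul_mem (show x ∈ v.vs from hx) (show y ∈ v.vs from hy) : x * y ∈ v.vs)

theorem red_eq {x : K} (h : 0 ≤ v.ord x) : v.red x = IsLocalRing.residue v.vs ⟨x, h⟩ := by
  unfold DV.red
  rw [dif_pos h]

theorem red_add {x y : K} (hx : 0 ≤ v.ord x) (hy : 0 ≤ v.ord y) : v.red (x + y) = v.red x + v.red y := by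
  rw [red_eq v hx, red_eq v hy, red_eq v (nonneg_add v hx hy), ← map_add]
  rfl

theorem red_mul {x y : K} (hx : 0 ≤ v.ord x) (hy : 0 ≤ v.ord y) : v.red (x * y) = v.red x * v.red y := by
  rw [red_eq v hx, red_eq v hy, red_eq v (nonneg_mul v hx hy), ← map_mul]
  rfl

theorem red_zero : v.red 0 = 0 := by
  rw [red_eq v (by rw [v.ord_zero])]
  exact map_zero (IsLocalRing.residue v.vs)

theorem red_one : v.red 1 = 1 := by
  rw [red_eq v (by rw [v.ord_one])]
  exact map_one (IsLocalRing.residue v.vs)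

theorem nonneg_sum {ι : Type*} (s : Finset ι) (f : ι → K) (h : ∀ i ∈ s, 0 ≤ v.ord (f i)) :
    0 ≤ v.ord (∑ i ∈ s, f i) :=
  (sum_mem (fun i hi => (show f i ∈ v.vs from h i hi)) : ∑ i ∈ s, f i ∈ v.vs)

theorem red_sum {ι : Type*} (s : Finset ι) (f : ι → K) (h : ∀ i ∈ s, 0 ≤ v.ord (f i)) :
    v.red (∑ i ∈ s, f i) = ∑ i ∈ s, v.red (f i) := by
  classical
  induction s using Finset.induction_on with
  | empty => simp [red_zero]
  | insert a s ha ih =>
    rw [Finset.sum_insert ha, Finset.sum_insert ha,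
      red_add v (h a (Finset.mem_insert_self a s))
        (nonneg_sum v s f fun i hi => h i (Finset.mem_insert_of_mem hi)),
      ih fun i hi => h i (Finset.mem_insert_of_mem hi)]

/-- the base field maps to the residue field through the reduction -/
theorem algebraMap_res (c : k) : algebraMap k v.Res c = v.red (algebraMap k K c) := by
  rw [red_eq v (by rw [v.ord_base])]
  rfl

theorem red_ne_zero {x : K} (hx : x ≠ 0) (h : v.ord x = 0) : v.red x ≠ 0 := by
  intro h0
  have h1 : 0 ≤ v.ord x := h.ge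
  have h2 : 0 ≤ v.ord x⁻¹ := by rw [v.ord_inv]; omega
  have h3 : v.red (x * x⁻¹) = 1 := by rw [mul_inv_cancel₀ hx, red_one]
  rw [red_mul v h1 h2, h0, zero_mul] at h3
  exact zero_ne_one h3

theorem red_eq_zero {x : K} (h : 0 < v.ord x) : v.red x = 0 := by
  rw [red_eq v h.le, IsLocalRing.residue_eq_zero_iff]
  intro hu
  have h1 : (x : K) ≠ 0 := by
    intro h0
    rw [h0, v.ord_zero] at h
    exact lt_irrefl _ h
  obtain ⟨y, hy⟩ := hu.exists_right_inv
  have h2 : x * (y : K) = 1 := congrArg Subtype.val hy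
  have h3 : (y : K) ≠ 0 := by
    intro h0
    rw [h0, mul_zero] at h2
    exact zero_ne_one h2
  have h4 := v.ord_mul x y h1 h3
  rw [h2, v.ord_one] at h4
  have h5 : 0 ≤ v.ord (y : K) := y.2
  omega

theorem red_ne_zero_iff {x : K} (h : 0 ≤ v.ord x) : v.red x ≠ 0 ↔ x ≠ 0 ∧ v.ord x = 0 := by
  constructor
  · intro h0
    have h1 : x ≠ 0 := by
      rintro rfl
      exact h0 (red_zero v)
    refine ⟨h1, ?_⟩
    by_contra h2
    exact h0 (red_eq_zero v (lt_of_le_of_ne h (Ne.symm h2)))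
  · exact fun h0 => red_ne_zero v h0.1 h0.2

/-- the minimal order is attained -/
theorem mo_spec {S : Sys K} (hS : S.Nz) :
    (∃ i, S.s i ≠ 0 ∧ v.ord (S.s i) = v.mo S) ∧ ∀ i, S.s i ≠ 0 → v.mo S ≤ v.ord (S.s i) := by
  set A : Set ℤ := {z | ∃ i, S.s i ≠ 0 ∧ v.ord (S.s i) = z} with hA
  have hfin : A.Finite := by
    refine (Set.finite_range fun i => v.ord (S.s i)).subset ?_
    rintro z ⟨i, -, hi⟩
    exact ⟨i, hi⟩
  have hne : A.Nonempty := by
    obtain ⟨i, hi⟩ := hS
    exact ⟨_, i, hi, rfl⟩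
  have hb : BddBelow A := hfin.bddBelow
  refine ⟨?_, fun i hi => csInf_le hb ⟨i, hi, rfl⟩⟩
  exact Int.csInf_mem hne hb

theorem ord_scaled (v : DV k K) (S : Sys K) {x : K} (hx : x ≠ 0) :
    v.ord (x * v.unif ^ (-v.mo S)) = v.ord x - v.mo S := by
  rw [v.ord_mul _ _ hx (zpow_ne_zero _ (unif_ne_zero v)), ord_zpow, ord_unif]
  ring

/-- the elements of the scaled system are integral -/
theorem scaled_nonneg {S : Sys K} (hS : S.Nz) (i : Fin S.r) : 0 ≤ v.ord (S.s i * v.unif ^ (-v.mo S)) := by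
  by_cases h : S.s i = 0
  · rw [h, zero_mul, v.ord_zero]
  · rw [ord_scaled v S h]
    have := (mo_spec v hS).2 i h
    omega

/-- nonzero elements of the residue system -/
theorem res_ne_zero {S : Sys K} (hS : S.Nz) (i : Fin S.r) :
    (v.res S).s i ≠ 0 ↔ S.s i ≠ 0 ∧ v.ord (S.s i) = v.mo S := by
  show v.red (S.s i * v.unif ^ (-v.mo S)) ≠ 0 ↔ _
  rw [red_ne_zero_iff v (scaled_nonneg v hS i)]
  constructor
  · rintro ⟨h1, h2⟩
    have h3 : S.s i ≠ 0 := left_ne_zero_of_mul h1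
    rw [ord_scaled v S h3] at h2
    exact ⟨h3, by omega⟩
  · rintro ⟨h1, h2⟩
    refine ⟨mul_ne_zero h1 (zpow_ne_zero _ (unif_ne_zero v)), ?_⟩
    rw [ord_scaled v S h1]
    omega

theorem res_Nz {S : Sys K} (hS : S.Nz) : (v.res S).Nz := by
  obtain ⟨i, hi⟩ := (mo_spec v hS).1
  exact ⟨i, (res_ne_zero v hS i).2 hi⟩

end

end Pool.Agent.H65.KN
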