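import Pool.Agent.H88.KN.Targets

/-!
MP_b5bf4a_co, dense range: the walk of an extended word (helper65).
-/

namespace Pool.Agent.H65.KN

open Finset Pool.Agent.H88.KN

lemma ext_lt {M : ℕ} [NeZero M] (w : Fin M → Bool) {i t : ℕ} (hi : i ≤ M) (ht : t < i) :
    ext w ((i : ZMod (2 * M)) - 1 - (t : ZMod (2 * M))) = wN w (i - 1 - t) := by
  have h1 : ((i : ZMod (2 * M)) - 1 - (t : ZMod (2 * M))) = ((i - 1 - t : ℕ) : ZMod (2 * M)) := by
    have h2 : i = (i - 1 - t) + 1 + t := by omega
    have h3 : (i : ZMod (2 * M)) = ((i - 1 - t : ℕ) : ZMod (2 * M)) + 1 + (t : ZMod (2 * M)) := by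
      conv_lhs => rw [h2]
      push_cast; ring
    rw [h3]; ring
  have h4 : ((i - 1 - t : ℕ) : ZMod (2 * M)).val = i - 1 - t :=
    ZMod.val_natCast_of_lt (by omega)
  rw [h1, Pool.Agent.H88.KN.ext, h4, if_pos (by omega)]

lemma ext_ge {M : ℕ} [NeZero M] (w : Fin M → Bool) {i t : ℕ} (hi : i ≤ t) (ht : t < M) :
    ext w ((i : ZMod (2 * M)) - 1 - (t : ZMod (2 * M))) = !(wN w (M + i - 1 - t)) := by
  have h1 : ((i : ZMod (2 * M)) - 1 - (t : ZMod (2 * M))) =
      ((2 * M + i - 1 - t : ℕ) : ZMod (2 * M)) := by
    have h2 : 2 * M + i = (2 * M + i - 1 - t) + 1 + t := by omega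
    have h3 : ((2 * M + i : ℕ) : ZMod (2 * M)) =
        ((2 * M + i - 1 - t : ℕ) : ZMod (2 * M)) + 1 + (t : ZMod (2 * M)) := by
      conv_lhs => rw [h2]
      push_cast; ring
    have h4 : ((2 * M + i : ℕ) : ZMod (2 * M)) = (i : ZMod (2 * M)) := by
      rw [Nat.cast_add, ZMod.natCast_self, zero_add]
    rw [h4] at h3
    rw [h3]; ring
  have h4 : ((2 * M + i - 1 - t : ℕ) : ZMod (2 * M)).val = 2 * M + i - 1 - t :=
    ZMod.val_natCast_of_lt (by omega)
  rw [h1, Pool.Agent.H88.KN.ext, h4, if_neg (by omega)]
  have h5 : 2 * M + i - 1 - t - M = M + i - 1 - t := by omega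
  rw [h5]

theorem pf_WE : T_WE := by
  intro M _ w i hi
  have h1 : ((univ.filter (fun l : Fin M => (w l = true ↔ l.val < i))).card : ℤ) =
      ∑ l ∈ range M, if (wN w l = true ↔ l < i) then (1 : ℤ) else 0 := by
    rw [Finset.card_filter, Finset.sum_range]
    push_cast
    apply Finset.sum_congr rfl
    intro l _
    have h2 : wN w l.val = w l := by
      rw [wN, dif_pos l.2]
    rw [h2]
  rw [h1, wz]
  apply Finset.sum_nbij' (fun t => if t < i then i - 1 - t else M + i - 1 - t)
    (fun t => if t < i then i - 1 - t else M + i - 1 - t)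
  · intro t ht
    rw [Finset.mem_range] at ht ⊢
    split_ifs with h
    · omega
    · omega
  · intro t ht
    rw [Finset.mem_range] at ht ⊢
    split_ifs with h
    · omega
    · omega
  · intro t ht
    rw [Finset.mem_range] at ht
    by_cases h : t < i
    · rw [if_pos h, if_pos (by omega)]; omega
    · rw [if_neg h, if_neg (by omega)]; omega
  · intro t ht
    rw [Finset.mem_range] at ht
    by_cases h : t < i
    · rw [if_pos h, if_pos (by omega)]; omega
    · rw [if_neg h, if_neg (by omega)]; omega
  · intro t ht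
    rw [Finset.mem_range] at ht
    by_cases h : t < i
    · rw [if_pos h, ext_lt w hi h]
      have h2 : (wN w (i - 1 - t) = true ↔ i - 1 - t < i) ↔ wN w (i - 1 - t) = true := by
        constructor
        · intro h3; exact h3.2 (by omega)
        · intro h3; exact ⟨fun _ => by omega, fun _ => h3⟩
      simp only [h2]
    · rw [if_neg h, ext_ge w (not_lt.1 h) ht]
      have h2 : (wN w (M + i - 1 - t) = true ↔ M + i - 1 - t < i) ↔
          (!(wN w (M + i - 1 - t))) = true := by
        constructor
        · intro h3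
          rw [Bool.not_eq_true']
          by_contra h4
          rw [Bool.not_eq_false] at h4
          have := h3.1 h4
          omega
        · intro h3
          rw [Bool.not_eq_true'] at h3
          rw [h3]
          constructor
          · intro h4; exact absurd h4 (by decide)
          · intro h4; omega
      simp only [h2]

end Pool.Agent.H65.KN
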